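import Pool.Agent.U465.SR.AP
import Pool.Agent.U465.SR.Part2

set_option autoImplicit false

/-!
# The number of progression-free subsets of `F_p^n`

The number of the subsets of `F_p^n` without `k`-term progressions is `2^{Θ(r_k(F_p^n))}`, and almost all
of them have `Θ(r_k(F_p^n))` elements. More generally we find the order of magnitude of the logarithm of
the partition function `Z(β) = ∑ β^{|A|}` (the sum over the progression-free sets `A ⊆ F_p^n`) for all
activities `β > 0` and all `n`. For `β ≥ 1` it is `r_k(F_p^n) log (1 + β)`; for `p^n β^{k-1} ≥ 1` it is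
`β p^h r_k(F_p^{n-h})` with `h = ⌈(k-1) log_p (1/β)⌉`; and for smaller `β` it is `β p^n`.

The proof is by containers (`Pool.Agent.U465.SR.Cont`; the container lemma is the one of
`Pool.Agent.Y940.CT.Fp`) with the supersaturation given by random affine maps. The costs of the steps of
the container algorithm form a convergent geometric series: this uses the supermultiplicativity of
`r_k(F_p^n)` and `λ_{k,p} > p^{1 - 1/(k-1)}` (`MP_b30443_co.NormFormBound`).
-/

open Finset Filter Topology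

namespace Pool.Agent.Results.MP_b30443_co.CountingSets

open Pool.Agent.U465.AP (APFree r lam r_le_lam lam_ge r_ge r_mul)
open Pool.Agent.U465.SR

section

open scoped Classical

/-- Let `p ≥ k ≥ 3` with `p` prime. The number of the subsets of `F_p^n` without nontrivial `k`-term
progressions. -/
noncomputable def num (k p n : ℕ) [Fact p.Prime] : ℕ :=
  (univ.filter (fun A : Finset (Fin n → ZMod p) => APFree k A)).card

/-- The number of the subsets of `F_p^n` without nontrivial `k`-term progressions which have less than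
`x` elements. -/
noncomputable def small (k p n : ℕ) [Fact p.Prime] (x : ℝ) : ℕ :=
  (univ.filter (fun A : Finset (Fin n → ZMod p) => APFree k A ∧ (A.card : ℝ) < x)).card

/-- The partition function: the sum of `β ^ |A|` over the subsets `A` of `F_p^n` without nontrivial
`k`-term progressions. -/
noncomputable def Z (k p n : ℕ) [Fact p.Prime] (β : ℝ) : ℝ :=
  ∑ A ∈ univ.filter (fun A : Finset (Fin n → ZMod p) => APFree k A), β ^ A.card

/-- The main term: `r_k(F_p^n) log (1 + β)` if `β ≥ 1`, then `β p^h r_k(F_p^{n-h})` with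
`h = ⌈(k-1) log_p (1/β)⌉` if `p^n β^(k-1) ≥ 1`, and `β p^n` for smaller `β`. -/
noncomputable def main (k p n : ℕ) (β : ℝ) : ℝ :=
  if 1 ≤ β then r k p n * Real.log (1 + β)
  else if 1 ≤ (p : ℝ) ^ n * β ^ (k - 1) then
    β * (p : ℝ) ^ ⌈((k : ℝ) - 1) * Real.logb p (1 / β)⌉₊ *
      r k p (n - ⌈((k : ℝ) - 1) * Real.logb p (1 / β)⌉₊)
  else β * (p : ℝ) ^ n

end

/-- **The number of progression-free sets.** Let `p ≥ k ≥ 3` with `p` prime.

(1) The number of the subsets of `F_p^n` without nontrivial `k`-term progressions is between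
`2 ^ r_k(F_p^n)` and `2 ^ (C r_k(F_p^n))`, for all `n`; so its binary logarithm has the growth rate
`λ_{k,p}`.
(2) For some `ε > 0` and all `n`, at most the fraction `2 ^ (- r_k(F_p^n) / 2)` of these sets has less
than `ε r_k(F_p^n)` elements.
(3) For all `n` and all `β > 0` the logarithm of the partition function `Z k p n β` is between
`c main k p n β` and `C main k p n β`. -/
theorem result (p k : ℕ) [Fact p.Prime] (hk : 3 ≤ k) (hkp : k ≤ p) :
    ((∃ C : ℝ, 0 < C ∧ ∀ n : ℕ, 2 ^ r k p n ≤ num k p n ∧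
        (num k p n : ℝ) ≤ (2 : ℝ) ^ (C * r k p n)) ∧
      Tendsto (fun n : ℕ => Real.logb 2 (num k p n) ^ (1 / (n : ℝ))) atTop (nhds (lam k p))) ∧
    (∃ ε : ℝ, 0 < ε ∧ ∀ n : ℕ,
      (small k p n (ε * r k p n) : ℝ) ≤ (2 : ℝ) ^ (-(r k p n : ℝ) / 2) * num k p n) ∧
    (∃ c C : ℝ, 0 < c ∧ 0 < C ∧ ∀ (n : ℕ) (β : ℝ), 0 < β →
      c * main k p n β ≤ Real.log (Z k p n β) ∧ Real.log (Z k p n β) ≤ C * main k p n β) := by
  classical
  have hpp : p.Prime := Fact.out
  have hp0 : (0 : ℝ) < p := by exact_mod_cast hpp.pos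
  have hp1 : (1 : ℝ) < p := by exact_mod_cast hpp.one_lt
  have hk3 : (3 : ℝ) ≤ k := by exact_mod_cast hk
  have hk1 : (0 : ℝ) < (k : ℝ) - 1 := by linarith
  have hcard : Fintype.card (ZMod p) = p := ZMod.card p
  have hinj := aAP_inj (p := p) (k := k) hkp
  have hlam2 : 2 ≤ lam k p := lam_ge hk hkp
  have hlamp : lam k p ≤ ((Fintype.card (ZMod p) : ℕ) : ℝ) := by rw [hcard]; exact lam_le
  have hlt : ((Fintype.card (ZMod p) : ℕ) : ℝ) < lam k p * (p : ℝ) ^ (1 / ((k : ℝ) - 1)) := by
    rw [hcard]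
    exact lt_lam hk hkp
  have hr' : ∀ ρ : ℝ, 1 ≤ ρ → ρ < lam k p → ∃ n₀ : ℕ, ∀ n ≥ n₀,
      ρ ^ n ≤ (rr p (aAP p k) n : ℝ) := by
    intro ρ h1 h2
    obtain ⟨n₀, h3⟩ := r_ge (p := p) hk ρ h1 h2
    refine ⟨n₀, fun n hn => ?_⟩
    rw [rr_eq (by omega)]
    exact h3 n hn
  have hmul : ∀ m n, rr p (aAP p k) m * rr p (aAP p k) n ≤ rr p (aAP p k) (m + n) := by
    intro m n
    rw [rr_eq (by omega), rr_eq (by omega), rr_eq (by omega)]
    exact r_mul (by omega) m n
  have hZ : ∀ (n : ℕ) (β : ℝ), Z k p n β = ZZ β (Free (ptv (p := p) (aAP p k) n)) univ := by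
    intro n β
    unfold Z ZZ
    rw [free_eq, powerset_univ]
  have hnum : ∀ n : ℕ, (num k p n : ℝ) = Z k p n 1 := by
    intro n
    unfold num Z
    simp
  obtain ⟨θ, K, h1, h2, h3, h4, h5⟩ := scales (p := p) (aAP p k) hinj (by omega) (lam k p)
    (by linarith) hlamp hlt hr' hmul
  obtain ⟨c, C, hc, hC, g1, g2, g3⟩ := partAll (p := p) (aAP p k) hinj (by omega) (by rw [hcard])
    θ K h1 h2 h3 h4 h5
  obtain ⟨ε, hε, g4⟩ := typical (p := p) (aAP p k) hinj (by omega) (by rw [hcard])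
    θ K h1 h2 h3 h4 h5
  simp only [rr_eq (show 0 < k by omega), hcard, ← hZ] at g1 g2 g3
  have hl2 : 0 < Real.log 2 := Real.log_pos (by norm_num)
  have hlow : ∀ n : ℕ, 2 ^ r k p n ≤ num k p n := by
    intro n
    have h6 : ((2 ^ r k p n : ℕ) : ℝ) ≤ (num k p n : ℝ) := by
      rw [hnum, hZ]
      have h7 := ZZ_lower (β := 1) zero_le_one
        (show Free (ptv (p := p) (aAP p k) n) ∅ from fun t ht => notMem_empty _ (ht ⟨0, by omega⟩))
        (fun I J h hI => hI.mono h) univ
      have h8 : alph (Free (ptv (p := p) (aAP p k) n)) univ = r k p n := rr_eq (by omega) n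
      rw [h8] at h7
      push_cast
      norm_num at h7
      exact h7
    exact_mod_cast h6
  have hnum0 : ∀ n : ℕ, (0 : ℝ) < num k p n := by
    intro n
    have h6 : 0 < 2 ^ r k p n := by positivity
    exact_mod_cast h6.trans_le (hlow n)
  have hup : ∀ n : ℕ, Real.log (num k p n) ≤ C * (r k p n * Real.log 2) := by
    intro n
    have h6 := (g1 n 1 le_rfl).2
    rw [hnum]
    norm_num at h6
    exact h6
  have hr1 : ∀ n : ℕ, 1 ≤ r k p n := by
    intro n
    have h6 := rr_pos (p := p) (aAP p k) hinj (by omega) n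
    rw [rr_eq (by omega)] at h6
    exact h6
  have hb : ∀ n : ℕ, Real.logb 2 (num k p n) ≤ C * r k p n := by
    intro n
    unfold Real.logb
    rw [div_le_iff₀ hl2]
    have := hup n
    linarith
  have hb2 : ∀ n : ℕ, (1 : ℝ) * r k p n ≤ Real.logb 2 (num k p n) := by
    intro n
    rw [one_mul, Real.le_logb_iff_rpow_le (by norm_num) (hnum0 n), Real.rpow_natCast]
    exact_mod_cast hlow n
  refine ⟨⟨⟨C, hC, fun n => ⟨hlow n, ?_⟩⟩, ?_⟩, ⟨ε, hε, fun n => ?_⟩, ?_⟩
  · rw [← Real.logb_le_iff_le_rpow (by norm_num) (hnum0 n)]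
    exact hb n
  · exact rate (r := fun n => (r k p n : ℝ)) (by linarith) (fun n => r_le_lam k n)
      (fun ρ q1 q2 => r_ge (p := p) hk ρ q1 q2) (fun n => by exact_mod_cast hr1 n) one_pos hC hb2 hb
  · have h6 := g4 n
    rw [rr_eq (by omega), free_eq, powerset_univ] at h6
    rw [neg_div, Real.rpow_neg (by norm_num), ← div_eq_inv_mul, le_div_iff₀ (by positivity)]
    exact h6
  · refine ⟨min 1 c, C + 1, by positivity, by positivity, fun n β hβ => ?_⟩
    unfold main
    split_ifs with h6 h7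
    · obtain ⟨q1, q2⟩ := g1 n β h6
      have q3 : 0 ≤ (r k p n : ℝ) * Real.log (1 + β) :=
        mul_nonneg (Nat.cast_nonneg _) (Real.log_nonneg (by linarith))
      constructor
      · refine le_trans ?_ q1
        nlinarith [min_le_left 1 c]
      · refine q2.trans ?_
        nlinarith
    · obtain ⟨_, q1, q2⟩ := g2 n β hβ (not_le.1 h6).le h7 _ rfl
      rw [← mul_assoc, mul_right_comm] at q1 q2
      have q4 : β * (p : ℝ) ^ ⌈((k : ℝ) - 1) * Real.logb p (1 / β)⌉₊ *
          (r k p (n - ⌈((k : ℝ) - 1) * Real.logb p (1 / β)⌉₊) : ℝ) =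
          β * (r k p (n - ⌈((k : ℝ) - 1) * Real.logb p (1 / β)⌉₊) : ℝ) *
          (p : ℝ) ^ ⌈((k : ℝ) - 1) * Real.logb p (1 / β)⌉₊ := by ring
      rw [q4]
      have q3 : 0 ≤ β * (r k p (n - ⌈((k : ℝ) - 1) * Real.logb p (1 / β)⌉₊) : ℝ) *
          (p : ℝ) ^ ⌈((k : ℝ) - 1) * Real.logb p (1 / β)⌉₊ := by positivity
      constructor
      · refine le_trans (mul_le_mul_of_nonneg_right (min_le_right 1 c) q3) ?_
        linarith
      · have q5 : C * (β * (r k p (n - ⌈((k : ℝ) - 1) * Real.logb p (1 / β)⌉₊) : ℝ) *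
          (p : ℝ) ^ ⌈((k : ℝ) - 1) * Real.logb p (1 / β)⌉₊) ≤ (C + 1) * (β * (r k p (n - ⌈((k : ℝ) - 1) * Real.logb p (1 / β)⌉₊) : ℝ) *
          (p : ℝ) ^ ⌈((k : ℝ) - 1) * Real.logb p (1 / β)⌉₊) :=
          mul_le_mul_of_nonneg_right (by linarith) q3
        linarith
    · obtain ⟨q1, q2⟩ := g3 n β hβ (not_le.1 h6).le (not_le.1 h7).le
      have q3 : 0 ≤ β * (p : ℝ) ^ n := by positivity
      constructor
      · exact le_trans (mul_le_mul_of_nonneg_right (min_le_right 1 c) q3) q1
      · refine q2.trans ?_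
        nlinarith

end Pool.Agent.Results.MP_b30443_co.CountingSets
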