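import Pool.Agent.U425.VL.Lam

set_option autoImplicit false

/-!
# Progression-free sets cut out by arbitrarily many polynomials of low degree

Every subset of `F_p^n` is the set of common zeros of polynomials, of degree at most `n (p - 1)`. Let
`rAlg k d p n` be the largest size of a set without nontrivial `k`-term progressions in `F_p^n` which is
the set of common zeros of ANY NUMBER of polynomials of degree at most `d`, and `lamAlg k d p` its
exponential growth rate. Then `λ_{k,p}` is the supremum of the `lamAlg k d p` over all `d`. We determine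
`lamAlg k d p` for all `d < k` up to the factor `(d + 1) ^ (2 / (d (d + 1)))`,

`p ^ (1 - 2/(d (d+1))) ≤ lamAlg k d p ≤ p ^ (1 - 2/(d (d+1))) * (d + 1 - d/p) ^ (2/(d (d+1)))`,

so that in this model the norm forms (starting file `NormFormBound`, `d = k - 1`) are optimal, and the
exponent `1 - 2/(k (k-1))` is sharp for `p → ∞`; and for all `d < p` (and all `k ≤ p`) we have
`lamAlg k d p < p`, an exponentially small density. For `k ≥ 4` and general sets no such bound is known.

The upper bounds hold more generally for unions of few sets, each of which is a union of joint level sets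
of a few polynomials of arbitrary degrees on a set cut out by arbitrarily many polynomials of degree at
most `d`. The main point is a theorem on lines: in any set cut out by polynomials of degree at most `d`,
in whatever number, all points but `p ^ n * ((d + 1 - d/p)/p) ^ e` lie on lines contained in the set, if
`e d (d + 1) < 2 n`.

Proof. By the theorem of Chevalley and Warning, `e` polynomials of degree at most `d` vanish on a line
through each common zero if `e d (d + 1) < 2 n`; but the set may need many more equations. We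
choose `e` random elements of the span `I` of the polynomials. Let `V` be the zero set of the `e` chosen
ones, over the algebraic closure or as a scheme; call a component of `V` bad if it is not in the zero set
of `I`. The weight of a component `X` is `deg X * p ^ dim X`; it bounds the number of rational points.
A further random element of `I` vanishes on a given bad component with probability at most `1 / p`, and
otherwise it cuts `X` in components of total weight at most `d / p` times the weight of `X`, by the
inequality of Bezout. So the expected total weight of the bad components is at most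
`((d + 1 - d/p)/p) ^ e * p ^ n`. A line in `V` through a point which is on no bad component is contained
in a component of `V` through the point, hence in the zero set of `I`. The inequality of Bezout for prime
ideals over any field is in the starting library (`Pool.Agent.N861.BK.BEZ`, from work on Turán numbers).
The factor `p` lost for fixed `n` disappears by taking powers. The lower bounds are norm forms in blocks.
-/

open MvPolynomial Finset
open Pool.Agent.U425.VL (APFree zeros rAlg lamAlg r lam)

namespace Pool.Agent.Results.MP_b30443_co.LowDegreeSets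

/-- **Progression-free sets cut out by polynomials of low degree.** Here `r k p n = r_k(F_p^n)` and
`lam k p = λ_{k,p}`; `rAlg k d p n` is the largest size of a subset of `F_p^n` without nontrivial
`k`-term progressions which is the set of common zeros of polynomials, in any number, of degree at most
`d`, and `lamAlg k d p` is the supremum of its `n`-th roots.

(1) `λ_{k,p} = sup_d lamAlg k d p`.
(2) For `1 ≤ d < k ≤ p`: `rAlg k d p n ≥ p ^ (n - e)` if `2 n ≤ e d (d + 1)`, and
`p ^ (1 - 2/(d (d+1))) ≤ lamAlg k d p ≤ p ^ (1 - 2/(d (d+1))) * (d + 1 - d/p) ^ (2/(d (d+1)))`.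
(3) For `1 ≤ d < p` and `2 ≤ k ≤ p`: `rAlg k d p n ≤ (p * ρ ^ (2/(d (d+1)))) ^ n` with
`ρ = (d + 1 - d/p)/p < 1`, and `lamAlg k d p < p`.
(4) If `A` has no nontrivial `k`-term progression and is the union of `T` sets, the `i`-th of which is a
union of joint level sets of polynomials `g i l`, `l < s i`, of arbitrary degrees, on the set of common
zeros of any number of polynomials of degree at most `d ≤ p`, then `|A| ≤ T ρ ^ e p ^ n`, provided
that `e d (d + 1) / 2 + ∑_l ∑_{j < k - 1} max (deg (g i l) - j, 0) < n` for each `i`.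
(5) In the set of common zeros of any set of polynomials of degree at most `d ≤ p` all points but
`ρ ^ e p ^ n` are on lines contained in the set, if `e d (d + 1) < 2 n`.
(6) For `1 ≤ d < k ≤ p` there are `s` polynomials of degree at most `d` in `n` variables whose set of
common zeros is not empty and has no nontrivial `k`-term progression if and only if
`2 n ≤ s d (d + 1)`. -/
theorem result (p : ℕ) [Fact p.Prime] :
    (∀ k : ℕ, lam k p = ⨆ d, lamAlg k d p) ∧
    (∀ k d : ℕ, 1 ≤ d → d < k → k ≤ p →
      (∀ n e : ℕ, 2 * n ≤ e * (d * (d + 1)) → p ^ (n - e) ≤ rAlg k d p n) ∧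
      (p : ℝ) ^ (1 - 2 / ((d : ℝ) * (d + 1))) ≤ lamAlg k d p ∧
      lamAlg k d p ≤ (p : ℝ) ^ (1 - 2 / ((d : ℝ) * (d + 1))) *
        ((d : ℝ) + 1 - d / p) ^ (2 / ((d : ℝ) * (d + 1)))) ∧
    (∀ k d : ℕ, 2 ≤ k → k ≤ p → 1 ≤ d → d < p →
      (∀ n : ℕ, (rAlg k d p n : ℝ) ≤
        ((p : ℝ) * (((d : ℝ) + 1 - d / p) / p) ^ (2 / ((d : ℝ) * (d + 1)))) ^ n) ∧
      lamAlg k d p < p) ∧
    (∀ k d n e T : ℕ, 2 ≤ k → k ≤ p → 1 ≤ d → d ≤ p → ∀ (s : Fin T → ℕ)
      (S : Fin T → Set (MvPolynomial (Fin n) (ZMod p)))
      (g : ∀ i, Fin (s i) → MvPolynomial (Fin n) (ZMod p)) (C : ∀ i, Set (Fin (s i) → ZMod p)),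
      (∀ i, ∀ f ∈ S i, f.totalDegree ≤ d) →
      (∀ i, e * (d * (d + 1)) +
        2 * ∑ l, ∑ j ∈ range (k - 1), ((g i l).totalDegree - j) < 2 * n) →
      APFree k p n (⋃ i, {x | x ∈ zeros (S i) ∧ (fun l => eval x (g i l)) ∈ C i}) →
      ((⋃ i, {x | x ∈ zeros (S i) ∧ (fun l => eval x (g i l)) ∈ C i}).ncard : ℝ) ≤
        T * (((d : ℝ) + 1 - d / p) / p) ^ e * p ^ n) ∧
    (∀ d n e : ℕ, 1 ≤ d → d ≤ p → e * (d * (d + 1)) < 2 * n →
      ∀ S : Set (MvPolynomial (Fin n) (ZMod p)), (∀ f ∈ S, f.totalDegree ≤ d) →
      ({x | x ∈ zeros S ∧ ∀ y : Fin n → ZMod p, y ≠ 0 →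
        ∃ t : ZMod p, x + t • y ∉ zeros S}.ncard : ℝ) ≤
        (((d : ℝ) + 1 - d / p) / p) ^ e * p ^ n) ∧
    (∀ k d n s : ℕ, 1 ≤ d → d < k → k ≤ p →
      ((∃ Q : Fin s → MvPolynomial (Fin n) (ZMod p), (∀ i, (Q i).totalDegree ≤ d) ∧
        (zeros (Set.range Q)).Nonempty ∧ APFree k p n (zeros (Set.range Q))) ↔
      2 * n ≤ s * (d * (d + 1)))) := by
  have hp : (0 : ℝ) < p := by exact_mod_cast (Fact.out : p.Prime).pos
  have conv : ∀ {d e n a T : ℕ}, d ≤ p →
      a * p ^ (2 * e) ≤ T * ((p * d + p - d) ^ e * p ^ n) →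
      (a : ℝ) ≤ T * (((d : ℝ) + 1 - d / p) / p) ^ e * p ^ n := by
    intro d e n a T hdp h
    have h1 := Pool.Agent.U425.VL.rho_eq (p := p) hdp
    have h2 : ((p * d + p - d : ℕ) : ℝ) ^ e =
        (((d : ℝ) + 1 - d / p) / p) ^ e * (p : ℝ) ^ (2 * e) := by
      have h3 : (((d : ℝ) + 1 - d / p) / p) = Pool.Agent.U425.VL.rho d p := rfl
      rw [h3, ← h1, div_pow, ← pow_mul]
      field_simp
    have h4 : (a : ℝ) * (p : ℝ) ^ (2 * e) ≤
        T * (((p * d + p - d : ℕ) : ℝ) ^ e * (p : ℝ) ^ n) := by exact_mod_cast h
    rw [h2] at h4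
    have h5 : (0 : ℝ) < (p : ℝ) ^ (2 * e) := by positivity
    refine le_of_mul_le_mul_right (h4.trans (le_of_eq ?_)) h5
    ring
  refine ⟨fun k => Pool.Agent.U425.VL.lam_eq k, ?_, ?_, ?_, ?_, ?_⟩
  · intro k d hd hdk hkp
    refine ⟨fun n e he => Pool.Agent.U425.VL.rAlg_lower hd hdk hkp he,
      Pool.Agent.U425.VL.le_lamAlg hd hdk hkp, ?_⟩
    refine (Pool.Agent.U425.VL.lamAlg_le (by omega) hkp hd (by omega)).trans (le_of_eq ?_)
    have h1 : (d : ℝ) / p ≤ 1 := by
      rw [div_le_one hp]
      exact_mod_cast (by omega : d ≤ p)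
    have h2 : (0 : ℝ) ≤ (d : ℝ) + 1 - d / p := by
      have : (0 : ℝ) ≤ d := Nat.cast_nonneg d
      linarith
    unfold Pool.Agent.U425.VL.rho
    rw [Real.div_rpow h2 hp.le, Real.rpow_sub hp, Real.rpow_one]
    field_simp
  · intro k d hk hkp hd hdp
    have hρ := Pool.Agent.U425.VL.rho_pos (p := p) hdp.le
    have hρ1 := Pool.Agent.U425.VL.rho_lt (p := p) hd hdp
    refine ⟨fun n => ?_, ?_⟩
    · rcases Nat.eq_zero_or_pos n with h0 | h0
      · subst h0
        have h1 : rAlg k d p 0 ≤ p ^ 0 :=
          (Pool.Agent.U425.VL.rAlg_le_r k d).trans (Pool.Agent.U425.VL.r_le k)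
        rw [pow_zero] at h1 ⊢
        exact_mod_cast h1
      · refine (Pool.Agent.U425.VL.rAlg_le hk hkp hd hdp.le h0).trans (le_of_eq ?_)
        have h1 : (((d : ℝ) + 1 - d / p) / p) = Pool.Agent.U425.VL.rho d p := rfl
        rw [h1, mul_pow, ← Real.rpow_natCast (_ ^ _) n, ← Real.rpow_mul hρ.le]
        congr 2
        ring
    · refine lt_of_le_of_lt (Pool.Agent.U425.VL.lamAlg_le hk hkp hd hdp.le) ?_
      have h1 : Pool.Agent.U425.VL.rho d p ^ (2 / ((d : ℝ) * (d + 1))) < 1 :=
        Real.rpow_lt_one hρ.le hρ1 (by positivity)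
      calc (p : ℝ) * Pool.Agent.U425.VL.rho d p ^ (2 / ((d : ℝ) * (d + 1))) < p * 1 := by
            gcongr
        _ = p := mul_one _
  · intro k d n e T hk hkp hd hdp s S g C hS hsum hfree
    exact conv hdp (Pool.Agent.U425.VL.unions hk hkp hd hdp s S g C hS hsum hfree)
  · intro d n e hd hdp he S hS
    have h1 := Pool.Agent.U425.VL.lines hd hdp he S hS
    have h2 := conv (T := 1) hdp (h1.trans (one_mul _).symm.le)
    simpa using h2
  · intro k d n s hd hdk hkp
    exact Pool.Agent.U425.VL.equations hd hdk hkp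

end Pool.Agent.Results.MP_b30443_co.LowDegreeSets
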