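import Pool.Agent.U465.APEx

set_option autoImplicit false

/-!
# Progression-free sets with prescribed symmetries

The largest subsets of `F_p^n` without `k`-term progressions which are invariant under *all*
permutations of the coordinates are exponentially smaller than `λ_{k,p}^n` in the known cases. This
file shows that for all groups `G` of permutations and sign changes of the coordinates which have few
elements with small support, nothing is lost: the growth rate `λ_{k,p}` is attained by the
`G`-invariant sets. Here few means that `Θ_G(δ) = ∑_{g ∈ G, g ≠ 1} exp (-δ |supp g|)` is small, where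
`supp g` is the set of the coordinates changed by `g`. Examples are the cyclic shifts, the left and
right translations of any group, the groups with `log |G|` small against the minimal degree, and the
group `S_m × S_m` of the permutations of the rows and of the columns of `m × m` matrices, which has
`exp ((2 + o(1)) √n log √n)` elements, `n = m ^ 2`.

Proof. Choose disjoint random sets `M, M' ⊆ {1, …, n}` of density `1 / Q`. For all pairs
`(g, h) ≠ (1, 1)` of elements of `G` there is, with high probability, a coordinate `i` such that `i`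
and its images under `g` and `h` are in `M ∪ M'`, in a prescribed way (the failure probability is
at most `exp (-|supp g ∪ supp h| / (9 Q ^ 3))`, as there are many disjoint triples). Take a largest
`k`-AP-free set in the coordinates outside `M ∪ M'`, put `0` on `M` and `1` on `M'`, and let `A` be the
union of the images of this set under `G`. Three terms of a progression in `A` which do not all belong
to the same image satisfy a linear equation; after moving the first one back by `G`, it is violated
in the coordinate `i`.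
-/

namespace Pool.Agent.Results.MP_b30443_co.PrescribedSymmetry

open Pool.Agent.U465.AP

/-- Let `p` be a prime and `3 ≤ k ≤ p`; `r k p n = r_k(F_p^n)`, `lam k p = λ_{k,p}`. For a group `G` of
permutations and sign changes of the coordinates of `F_p^ι` let `rG k G` be the largest size of a
`G`-invariant subset of `F_p^ι` without nontrivial `k`-term progressions, and let
`Theta G δ = ∑_{g ≠ 1} exp (-δ |supp g|)`. Let `n = |ι|`.

1. If `0 < ε ≤ 1` and `Theta G (ε ^ 3 / 2250) ≤ 1 / 5` then `rG k G ≥ r_k(F_p^m)` for some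
   `m ≥ (1 - ε) n`, and `r_k(F_p^n) ≤ p^(ε n) rG k G`.
2. For every `ρ < λ_{k,p}` there are `δ > 0` and `n₀` such that `ρ^n ≤ rG k G ≤ λ_{k,p}^n` if
   `n ≥ n₀` and `Theta G δ ≤ 1 / 5`.
3. For every `ρ < λ_{k,p}` there is `C` such that `ρ^n ≤ rG k G` if `n ≥ C` and every `g ≠ 1` in `G`
   changes at least `C (1 + log |G|)` coordinates.
4. For every `ρ < λ_{k,p}` and every finite group `Γ` of sufficiently large order there is a
   `k`-AP-free set of at least `ρ^|Γ|` functions on `Γ` with values in `F_p` which is invariant under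
   the left and the right translations of `Γ` (for cyclic `Γ`: under the cyclic shifts).
5. For every `ρ < λ_{k,p}` and all sufficiently large `m` there is a `k`-AP-free set of at least
   `ρ^(m^2)` matrices in `F_p^{m × m}` which is invariant under all permutations of the rows and all
   permutations of the columns. -/
theorem result (p : ℕ) [Fact p.Prime] (k : ℕ) (hk : 3 ≤ k) (hkp : k ≤ p) :
    (∀ ε : ℝ, 0 < ε → ε ≤ 1 → ∀ (ι : Type) [Fintype ι] (G : Subgroup (Equiv.Perm (ι → ZMod p))),
      (∀ g ∈ G, Signed g) → Theta G (ε ^ 3 / 2250) ≤ 1 / 5 →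
      (∃ m : ℕ, (1 - ε) * Fintype.card ι ≤ m ∧ m ≤ Fintype.card ι ∧ r k p m ≤ rG k G) ∧
      (r k p (Fintype.card ι) : ℝ) ≤ (p : ℝ) ^ (ε * Fintype.card ι) * rG k G) ∧
    ∀ ρ : ℝ, 0 ≤ ρ → ρ < lam k p →
      (∃ δ : ℝ, 0 < δ ∧ ∃ n₀ : ℕ, ∀ (ι : Type) [Fintype ι]
        (G : Subgroup (Equiv.Perm (ι → ZMod p))), (∀ g ∈ G, Signed g) → n₀ ≤ Fintype.card ι →
        Theta G δ ≤ 1 / 5 →
          ρ ^ Fintype.card ι ≤ rG k G ∧ (rG k G : ℝ) ≤ lam k p ^ Fintype.card ι) ∧
      (∃ C : ℝ, 0 < C ∧ ∀ (ι : Type) [Fintype ι] (G : Subgroup (Equiv.Perm (ι → ZMod p))),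
        (∀ g ∈ G, Signed g) → C ≤ Fintype.card ι →
        (∀ g ∈ G, g ≠ 1 → C * (1 + Real.log (Nat.card G)) ≤ (supp g).card) →
          ρ ^ Fintype.card ι ≤ rG k G) ∧
      (∃ n₀ : ℕ, ∀ (Γ : Type) [Group Γ] [Fintype Γ], n₀ ≤ Fintype.card Γ →
        ∃ A : Finset (Γ → ZMod p), APFree k A ∧
          (∀ a b : Γ, ∀ x ∈ A, (fun i => x (a * i * b)) ∈ A) ∧ ρ ^ Fintype.card Γ ≤ A.card) ∧
      (∃ m₀ : ℕ, ∀ m ≥ m₀, ∃ A : Finset (Fin m × Fin m → ZMod p), APFree k A ∧
        (∀ π τ : Equiv.Perm (Fin m), ∀ x ∈ A, (fun q => x (π q.1, τ q.2)) ∈ A) ∧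
        ρ ^ m ^ 2 ≤ A.card) := by
  refine ⟨fun ε hε hε1 ι _ G hG hΘ => ineq hk hkp ε hε hε1 G hG hΘ, fun ρ hρ0 hρ => ⟨?_, ?_, ?_, ?_⟩⟩
  · obtain ⟨δ, hδ, n₀, h⟩ := growth (p := p) hk hkp ρ hρ0 hρ
    exact ⟨δ, hδ, n₀, fun ι _ G hG hn hΘ => h G hG hn hΘ⟩
  · obtain ⟨C, hC, h⟩ := minDegree (p := p) hk hkp ρ hρ0 hρ
    exact ⟨C, hC, fun ι _ G hG hn hμ => h G hG hn hμ⟩
  · exact groups (p := p) hk hkp ρ hρ0 hρ
  · exact matrices (p := p) hk hkp ρ hρ0 hρ

end Pool.Agent.Results.MP_b30443_co.PrescribedSymmetry
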