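import Pool.Agent.U465.SR.AP
import Pool.Agent.U465.SR.Vec5

set_option autoImplicit false

/-!
# Progression-free subsets of sparse random subsets of `F_p^n`

Let `S` be the random subset of `F_p^n` which contains each element with probability `q`. How large is
the largest subset `α_k(S)` of `S` without `k`-term progressions? For `q = 1` this is `r_k(F_p^n)`. We
determine the order of magnitude for all `q` and `n` in terms of the numbers `r_k(F_p^m)`:

`α_k(S) ≍ q p^h r_k(F_p^{n-h})`, where `h = ⌈(k-1) log_p (1/q)⌉ ≤ n`,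

so that the relative size of the progression-free subsets of `S` is that of the progression-free subsets
of the space `F_p^m` of dimension `m = n - h`, where `p^m` is, up to a factor `p`, the number of the
progressions in `S` through a point of `S`; and `α_k(S) ≍ q p^n` if `p^n q^{k-1} ≤ 1`. So for `q = p^{-τ n}`
and `λ_{k,p} = p^{1 - c}`, with probability tending to one

`α_k(S) = p^{(1 - τ - c (1 - (k-1) τ)^+ + o(1)) n}`,

and for each `τ < 1/(k-1)` a power saving for the progression-free subsets of the `p^{-τ n}`-random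
subsets is equivalent to `λ_{k,p} < p`.

The upper bound is proved with containers (`Pool.Agent.U465.SR.Cont`; the container lemma is the one of
`Pool.Agent.Y940.CT.Fp`) and the supersaturation given by random affine maps. The costs of the steps of
the container algorithm form a convergent geometric series; this uses the supermultiplicativity of
`r_k(F_p^n)` and `λ_{k,p} > p^{1 - 1/(k-1)}` (`MP_b30443_co.NormFormBound`). The lower bound is by deletion
in the sets `A × F_p^h`.
-/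

open Finset Filter Topology

namespace Pool.Agent.Results.MP_b30443_co.SparseRandom

open Pool.Agent.U465.AP (APFree r lam r_le_lam lam_ge r_ge r_mul)
open Pool.Agent.U465.SR

open scoped Classical in
/-- Let `p ≥ k ≥ 3` with `p` prime. For `S ⊆ F_p^n` let `al k S` be the largest size of a subset of
`S` without nontrivial `k`-term progressions. `S` is a `q`-random subset of `F_p^n`, `Pr q univ` is
the probability and `EE q univ` the expectation. -/
noncomputable def al (k : ℕ) {p n : ℕ} (S : Finset (Fin n → ZMod p)) : ℕ := alph (APFree k) S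

/-- `h = ⌈(k - 1) log_p (1 / q)⌉`. -/
noncomputable def hh (k p : ℕ) (q : ℝ) : ℕ := ⌈((k : ℝ) - 1) * Real.logb p (1 / q)⌉₊

/-- The main term `q p^h r_k(F_p^{n-h})`. -/
noncomputable def mu (k p n : ℕ) (q : ℝ) : ℝ :=
  q * (r k p (n - hh k p q) * (p : ℝ) ^ hh k p q)

/-- The exponent `1 - τ - c (1 - (k-1) τ)^+`, where `λ_{k,p} = p^{1 - c}`. -/
noncomputable def ex (k p : ℕ) (τ : ℝ) : ℝ :=
  1 - τ - (1 - Real.logb p (lam k p)) * max 0 (1 - ((k : ℝ) - 1) * τ)

/-- **Progression-free subsets of sparse random sets.**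

(1) If `0 < q ≤ 1` and `p^n q^{k-1} ≥ 1` then `hh k p q ≤ n`, the mean of `α_k(S)` is between `c μ` and
`C μ`, and `α_k(S) < C μ` with probability at least `1 - exp (-μ)`, where `μ = mu k p n q`.
(2) If `0 ≤ q ≤ 1` and `p^n q^{k-1} ≤ 1` then the mean of `α_k(S)` is between `q p^n / 4` and `q p^n`.
(3) `α_k(S)` is concentrated: its variance is at most its mean.
(4) For `0 ≤ τ < 1` and `q = p^{-τ n}`, with probability tending to one
`α_k(S) = p^{(ex k p τ + o(1)) n}`.
(5) For every `τ < 1/(k-1)`: `λ_{k,p} < p` if and only if, for some `δ > 0`, with probability tending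
to one the `p^{-τ n}`-random set has no progression-free subset with `p^{(1 - τ - δ) n}` elements. -/
theorem result (p k : ℕ) [Fact p.Prime] (hk : 3 ≤ k) (hkp : k ≤ p) :
    (∃ c C : ℝ, 0 < c ∧ 0 < C ∧ ∀ (n : ℕ) (q : ℝ), 0 < q → q ≤ 1 →
      1 ≤ (p : ℝ) ^ n * q ^ (k - 1) →
      hh k p q ≤ n ∧
      c * mu k p n q ≤ EE q (univ : Finset (Fin n → ZMod p)) (fun S => (al k S : ℝ)) ∧
      EE q (univ : Finset (Fin n → ZMod p)) (fun S => (al k S : ℝ)) ≤ C * mu k p n q ∧
      Pr q (univ : Finset (Fin n → ZMod p)) (fun S => C * mu k p n q ≤ al k S) ≤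
        Real.exp (-mu k p n q)) ∧
    (∀ (n : ℕ) (q : ℝ), 0 ≤ q → q ≤ 1 → (p : ℝ) ^ n * q ^ (k - 1) ≤ 1 →
      1 / 4 * (q * (p : ℝ) ^ n) ≤
        EE q (univ : Finset (Fin n → ZMod p)) (fun S => (al k S : ℝ)) ∧
      EE q (univ : Finset (Fin n → ZMod p)) (fun S => (al k S : ℝ)) ≤ q * (p : ℝ) ^ n) ∧
    (∀ (n : ℕ) (q : ℝ), 0 ≤ q → q ≤ 1 →
      EE q (univ : Finset (Fin n → ZMod p)) (fun S => ((al k S : ℝ) -
        EE q (univ : Finset (Fin n → ZMod p)) (fun S => (al k S : ℝ))) ^ 2) ≤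
      EE q (univ : Finset (Fin n → ZMod p)) (fun S => (al k S : ℝ))) ∧
    (∀ τ : ℝ, 0 ≤ τ → τ < 1 → ∀ ε : ℝ, 0 < ε →
      Tendsto (fun n : ℕ => Pr ((p : ℝ) ^ (-(τ * n))) (univ : Finset (Fin n → ZMod p)) (fun S =>
        (p : ℝ) ^ ((ex k p τ - ε) * n) ≤ al k S ∧ (al k S : ℝ) ≤ (p : ℝ) ^ ((ex k p τ + ε) * n)))
        atTop (nhds 1)) ∧
    (∀ τ : ℝ, 0 ≤ τ → τ < 1 / ((k : ℝ) - 1) →
      (lam k p < p ↔ ∃ δ : ℝ, 0 < δ ∧
        Tendsto (fun n : ℕ => Pr ((p : ℝ) ^ (-(τ * n))) (univ : Finset (Fin n → ZMod p)) (fun S =>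
          (p : ℝ) ^ ((1 - τ - δ) * n) ≤ al k S)) atTop (nhds 0))) := by
  classical
  have hpp : p.Prime := Fact.out
  have hp0 : (0 : ℝ) < p := by exact_mod_cast hpp.pos
  have hp1 : (1 : ℝ) < p := by exact_mod_cast hpp.one_lt
  have hk3 : (3 : ℝ) ≤ k := by exact_mod_cast hk
  have hk1 : (0 : ℝ) < (k : ℝ) - 1 := by linarith
  have hcard : Fintype.card (ZMod p) = p := ZMod.card p
  have hal : ∀ (n : ℕ) (S : Finset (Fin n → ZMod p)),
      al k S = alph (Free (ptv (p := p) (aAP p k) n)) S := by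
    intro n S
    unfold al
    rw [free_eq]
  have hinj := aAP_inj (p := p) (k := k) hkp
  have hlam2 : 2 ≤ lam k p := lam_ge hk hkp
  have hlamp : lam k p ≤ ((Fintype.card (ZMod p) : ℕ) : ℝ) := by rw [hcard]; exact lam_le
  have hlt : ((Fintype.card (ZMod p) : ℕ) : ℝ) < lam k p * (p : ℝ) ^ (1 / ((k : ℝ) - 1)) := by
    rw [hcard]
    exact lt_lam hk hkp
  have hr : ∀ m, (rr p (aAP p k) m : ℝ) ≤ lam k p ^ m := by
    intro m
    rw [rr_eq (by omega)]
    exact r_le_lam k m
  have hr' : ∀ ρ : ℝ, 1 ≤ ρ → ρ < lam k p → ∃ n₀ : ℕ, ∀ n ≥ n₀,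
      ρ ^ n ≤ (rr p (aAP p k) n : ℝ) := by
    intro ρ h1 h2
    obtain ⟨n₀, h3⟩ := r_ge (p := p) hk ρ h1 h2
    refine ⟨n₀, fun n hn => ?_⟩
    rw [rr_eq (by omega)]
    exact h3 n hn
  have hmul : ∀ m n, rr p (aAP p k) m * rr p (aAP p k) n ≤ rr p (aAP p k) (m + n) := by
    intro m n
    rw [rr_eq (by omega), rr_eq (by omega), rr_eq (by omega)]
    exact r_mul (by omega) m n
  have hlogp : Real.logb p (p : ℝ) = 1 := Real.logb_self_eq_one hp1
  have hex : ∀ τ : ℝ, Real.logb p ((Fintype.card (ZMod p) : ℕ) : ℝ) - τ -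
      Real.logb p (((Fintype.card (ZMod p) : ℕ) : ℝ) / lam k p) *
        max 0 (1 - ((k : ℝ) - 1) * τ) = ex k p τ := by
    intro τ
    rw [hcard, Real.logb_div hp0.ne' (by linarith), hlogp, ex]
  have hlim : ∀ τ : ℝ, 0 ≤ τ → τ < 1 → ∀ ε : ℝ, 0 < ε →
      Tendsto (fun n : ℕ => Pr ((p : ℝ) ^ (-(τ * n))) (univ : Finset (Fin n → ZMod p)) (fun S =>
        (p : ℝ) ^ ((ex k p τ - ε) * n) ≤ al k S ∧ (al k S : ℝ) ≤ (p : ℝ) ^ ((ex k p τ + ε) * n)))
        atTop (nhds 1) := by
    intro τ hτ0 hτ1 ε hε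
    have h1 := lim (p := p) (aAP p k) hinj hk (by rw [hcard]) (lam k p) (by linarith) hlamp hlt hr
      hr' τ hτ0 (by rw [hcard, hlogp]; exact hτ1) ε hε
    rw [hex] at h1
    simp only [hal]
    exact h1
  refine ⟨?_, ?_, ?_, hlim, ?_⟩
  · obtain ⟨θ, K, h1, h2, h3, h4, h5⟩ := scales (p := p) (aAP p k) hinj (by omega) (lam k p)
      (by linarith) hlamp hlt hr' hmul
    obtain ⟨c, C, hc, hC, h6⟩ := orderV (p := p) (aAP p k) hinj (by omega) (by rw [hcard]) θ K h1 h2
      h3 h4 h5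
    refine ⟨c, C, hc, hC, fun n q hq0 hq1 hq => ?_⟩
    obtain ⟨g1, g2, g3, g4, _⟩ := h6 n q (range_le (by omega) hq0.le hq) hq1 (hh k p q) rfl
      (mu k p n q) (by rw [mu, rr_eq (by omega), hcard])
    simp only [hal]
    exact ⟨g1, g2, g3, g4⟩
  · intro n q hq0 hq1 hq
    obtain ⟨g1, g2, g3⟩ := lowV (p := p) (aAP p k) hinj (by omega) n q hq0 hq1 hq
    rw [hcard] at g1 g3
    simp only [hal]
    exact ⟨g1.trans g2, g3⟩
  · intro n q hq0 hq1
    simp only [hal]
    exact var_alph hq0 hq1 (fun t ht => notMem_empty _ (ht ⟨0, by omega⟩))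
      (fun I J h hI => hI.mono h) _
  · intro τ hτ0 hτ
    have hτ2 : ((k : ℝ) - 1) * τ < 1 := by
      rw [lt_div_iff₀ hk1] at hτ
      linarith
    have hτ1 : τ < 1 := by nlinarith
    have hmax : max 0 (1 - ((k : ℝ) - 1) * τ) = 1 - ((k : ℝ) - 1) * τ := max_eq_right (by linarith)
    have hq0 : ∀ n : ℕ, 0 ≤ (p : ℝ) ^ (-(τ * n)) := fun n => by positivity
    have hq1 : ∀ n : ℕ, (p : ℝ) ^ (-(τ * n)) ≤ 1 := fun n =>
      Real.rpow_le_one_of_one_le_of_nonpos hp1.le (by
        rw [neg_nonpos]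
        positivity)
    constructor
    · intro hl
      have hc : 0 < 1 - Real.logb p (lam k p) := by
        have h1 := Real.logb_lt_logb hp1 (by linarith) hl
        rw [hlogp] at h1
        linarith
      set d : ℝ := (1 - Real.logb p (lam k p)) * (1 - ((k : ℝ) - 1) * τ) with hd
      have hd0 : 0 < d := mul_pos hc (by linarith)
      refine ⟨d / 2, by linarith, ?_⟩
      have h1 := hlim τ hτ0 hτ1 (d / 4) (by linarith)
      have h2 := h1.const_sub 1
      rw [sub_self] at h2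
      refine squeeze_zero' (Eventually.of_forall fun n => Pr_nonneg (hq0 n) (hq1 n) _ _) ?_ h2
      filter_upwards [eventually_ge_atTop 1] with n hn
      have h4 : Pr ((p : ℝ) ^ (-(τ * n))) (univ : Finset (Fin n → ZMod p)) (fun S =>
          (p : ℝ) ^ ((ex k p τ - d / 4) * n) ≤ al k S ∧
          (al k S : ℝ) ≤ (p : ℝ) ^ ((ex k p τ + d / 4) * n)) +
          Pr ((p : ℝ) ^ (-(τ * n))) (univ : Finset (Fin n → ZMod p)) (fun S =>
          (p : ℝ) ^ ((1 - τ - d / 2) * n) ≤ al k S) ≤ 1 := by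
        unfold Pr
        rw [← EE_add]
        refine le_trans (EE_mono (hq0 n) (hq1 n) fun S _ => ?_)
          (EE_one (q := (p : ℝ) ^ (-(τ * n))) (univ : Finset (Fin n → ZMod p))).le
        by_cases h5 : (p : ℝ) ^ ((1 - τ - d / 2) * n) ≤ al k S
        · rw [if_pos h5, if_neg, zero_add]
          rintro ⟨_, h6⟩
          have h7 := h5.trans h6
          rw [Real.rpow_le_rpow_left_iff hp1, ex, hmax, ← hd] at h7
          have hn0 : (0 : ℝ) < n := by exact_mod_cast hn
          nlinarith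
        · rw [if_neg h5]
          split_ifs <;> norm_num
      linarith
    · rintro ⟨δ, hδ, h1⟩
      by_contra hl
      have hl2 : lam k p = p := le_antisymm lam_le (not_lt.1 hl)
      have hex2 : ex k p τ = 1 - τ := by
        rw [ex, hl2, hlogp]
        ring
      have h2 := hlim τ hτ0 hτ1 δ hδ
      have h3 := le_of_tendsto_of_tendsto' h2 h1 fun n => Pr_mono (hq0 n) (hq1 n)
        fun S _ hS => by
          rw [hex2] at hS
          exact hS.1
      norm_num at h3

end Pool.Agent.Results.MP_b30443_co.SparseRandom
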